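import Pool.Graph.R_pool_sql_team_seeded_64922ed1.X179.SP.Main1
import Pool.Graph.R_pool_sql_team_seeded_64922ed1.X179.SP.Pos

/-!
# Derivations of Schatten classes of Hilbert spaces of arbitrary dimension
-/

set_option autoImplicit false

namespace Pool.Agent.KS6_21.SP

open Filter Topology Pool.Agent.X179.SP
open scoped InnerProductSpace

variable {H : Type} [NormedAddCommGroup H] [InnerProductSpace ℂ H]
variable {A : Type} [NonUnitalNormedRing A] [NormedSpace ℂ A]

section alg

variable {ι : A →ₙₐ[ℂ] (H →L[ℂ] H)} (hinj : Function.Injective ι) {r : H → H → A}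
  (hr : ∀ x y, ι (r x y) = ro x y)

include hinj hr

lemma r_sum_left {κ : Type} (F : Finset κ) (c : κ → ℂ) (u : κ → H) (y : H) :
    r (∑ j ∈ F, c j • u j) y = ∑ j ∈ F, c j • r (u j) y := by
  apply hinj
  rw [map_sum, hr]
  simp_rw [map_smul, hr]
  ext z
  rw [sum_apply, ro_apply, Finset.smul_sum]
  refine Finset.sum_congr rfl fun j _ => ?_
  rw [smul_apply, ro_apply, smul_comm]

lemma r_sum_right {κ : Type} (F : Finset κ) (c : κ → ℂ) (u : κ → H) (x : H) :
    r x (∑ j ∈ F, c j • u j) = ∑ j ∈ F, (starRingEnd ℂ) (c j) • r x (u j) := by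
  apply hinj
  rw [map_sum, hr]
  simp_rw [map_smul, hr]
  ext z
  rw [sum_apply, ro_apply, sum_inner, Finset.sum_smul]
  refine Finset.sum_congr rfl fun j _ => ?_
  rw [smul_apply, ro_apply, inner_smul_left, smul_smul]

lemma r_mul (x y x' y' : H) : r x y * r x' y' = ⟪y, x'⟫_ℂ • r x y' := by
  apply hinj
  rw [map_mul, map_smul, hr, hr, hr]
  ext z
  change ro x y (ro x' y' z) = _
  simp [ro_apply, smul_smul, inner_smul_right, mul_comm]

/-- The algebraic identity behind both positive parts. -/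
theorem key [IsScalarTower ℂ A A] [SMulCommClass ℂ A A] {κ : Type} (e : κ → H) (g : H) {Y : Type}
    [NormedAddCommGroup Y] [NormedSpace ℂ Y] (M : Bimod A Y) (D : A →L[ℂ] Y) (F : Finset κ) (x y : H) :
    M.left (r x y) (∑ j ∈ F, M.left (r (e j) g) (D (r g (e j)))) -
      M.right (r x y) (-∑ j ∈ F, M.right (r g (e j)) (D (r (e j) g))) =
    M.left (r x g) (D (r g (∑ j ∈ F, ⟪e j, y⟫_ℂ • e j))) +
      M.right (r g y) (D (r (∑ j ∈ F, ⟪e j, x⟫_ℂ • e j) g)) := by
  rw [r_sum_left hinj hr, r_sum_right hinj hr, map_neg, sub_neg_eq_add, map_sum, map_sum, map_sum,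
    map_sum, map_sum, map_sum]
  congr 1
  · refine Finset.sum_congr rfl fun j _ => ?_
    rw [← M.left_mul, r_mul hinj hr, map_smul, map_smul, map_smul, smul_apply, inner_conj_symm]
  · refine Finset.sum_congr rfl fun j _ => ?_
    rw [← M.right_mul, r_mul hinj hr, map_smul, map_smul, map_smul, smul_apply]

end alg

/-- In finite dimension every continuous derivation is semi-inner. -/
theorem finite_part [IsScalarTower ℂ A A] [SMulCommClass ℂ A A] [FiniteDimensional ℂ H] {p : ℝ}
    {ι : A →ₙₐ[ℂ] (H →L[ℂ] H)} (hι : IsSchatten p ι) {Y : Type} [NormedAddCommGroup Y]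
    [NormedSpace ℂ Y] (M : Bimod A Y) (D : A →L[ℂ] Y) (hD : IsDerivation M D) :
    ∃ ξ η : Y, ∀ a, D a = M.left a ξ - M.right a η := by
  have hex : ∀ x y : H, ∃ a : A, ι a = ro x y := by
    intro x y
    by_cases hx : x = 0
    · refine ⟨0, ?_⟩
      rw [map_zero]
      ext z
      simp [ro_apply, hx]
    by_cases hy : y = 0
    · refine ⟨0, ?_⟩
      rw [map_zero]
      ext z
      simp [ro_apply, hy]
    exact (hι.mem_iff _).2 ⟨Unit, _, _, _, ro_svd hx hy, Summable.of_finite⟩
  choose r hr using hex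
  rcases subsingleton_or_nontrivial H with hs | hn
  · refine ⟨0, 0, fun a => ?_⟩
    have h0 : a = 0 := hι.inj (by ext z; exact Subsingleton.elim _ _)
    rw [h0]
    simp
  set b := stdOrthonormalBasis ℂ H with hb
  have hpos : 0 < Module.finrank ℂ H := Module.finrank_pos
  set g : H := b ⟨0, hpos⟩ with hg
  have hgn : ‖g‖ = 1 := b.orthonormal.1 _
  have hexp : ∀ y : H, ∑ j, ⟪b j, y⟫_ℂ • b j = y := fun y => b.sum_repr' y
  obtain ⟨ξ, η, hrank⟩ : ∃ ξ η : Y, ∀ x y, D (r x y) = M.left (r x y) ξ - M.right (r x y) η := by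
    refine ⟨∑ j, M.left (r (b j) g) (D (r g (b j))), -∑ j, M.right (r g (b j)) (D (r (b j) g)), ?_⟩
    intro x y
    rw [key hι.inj hr b g M D Finset.univ x y, hexp, hexp, ← hD, r_mul hι.inj hr,
      inner_self_eq_norm_sq_to_K, hgn]
    simp
  refine ⟨ξ, η, fun a => ?_⟩
  have ha : a = ∑ j, r (ι a (b j)) (b j) := by
    apply hι.inj
    rw [map_sum]
    simp_rw [hr]
    ext z
    rw [sum_apply]
    simp_rw [ro_apply]
    conv_lhs => rw [← hexp z]
    rw [map_sum]
    exact Finset.sum_congr rfl fun j _ => map_smul _ _ _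
  rw [ha]
  simp only [map_sum, sum_apply]
  rw [← Finset.sum_sub_distrib]
  exact Finset.sum_congr rfl fun j _ => hrank _ _

theorem one_part [CompleteSpace H] [CompleteSpace A] [IsScalarTower ℂ A A] [SMulCommClass ℂ A A]
    {ι : A →ₙₐ[ℂ] (H →L[ℂ] H)} (hι : IsSchatten 1 ι) {Y : Type} [NormedAddCommGroup Y]
    [NormedSpace ℂ Y] [CompleteSpace Y] (M : Bimod A Y) (D : A →L[ℂ] Y) (hD : IsDerivation M D) :
    ApproxSemiInner M D := by
  rcases subsingleton_or_nontrivial H with hs | hn
  · refine ⟨ℕ, inferInstance, inferInstance, inferInstance, fun _ => 0, fun _ => 0, fun a => ?_⟩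
    have h0 : a = 0 := hι.inj (by ext z; exact Subsingleton.elim _ _)
    rw [h0]
    simp
  obtain ⟨w, e, -⟩ := exists_hilbertBasis ℂ H
  have he : Orthonormal ℂ e := e.orthonormal
  have hw : Nonempty w := by
    by_contra hcon
    rw [not_nonempty_iff] at hcon
    obtain ⟨z, hz⟩ := exists_ne (0 : H)
    have h1 := e.hasSum_repr z
    have h2 : HasSum (fun i => e.repr z i • e i) 0 := hasSum_empty
    exact hz (h1.unique h2)
  obtain ⟨i0⟩ := hw
  set g : H := e i0 with hg
  have hgn : ‖g‖ = 1 := he.1 i0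
  let Q : Finset w → H → H := fun N y => ∑ j ∈ N, ⟪e j, y⟫_ℂ • e j
  have hQ : ∀ y, Tendsto (fun N => Q N y) atTop (𝓝 y) := by
    intro y
    have h1 : Tendsto (fun N : Finset w => ∑ j ∈ N, e.repr y j • e j) atTop (𝓝 y) := e.hasSum_repr y
    simpa [Q, HilbertBasis.repr_apply_apply] using h1
  have hQn : ∀ N y, ‖Q N y‖ ≤ ‖y‖ := by
    intro N y
    refine (pow_le_pow_iff_left₀ (norm_nonneg _) (norm_nonneg _) two_ne_zero).1 ?_
    simp only [Q]
    rw [norm_sum_sq he]
    exact he.sum_inner_products_le y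
  have hr : ∀ x y, ι (rk hι x y) = ro x y := rk_spec hι
  let ξ : Finset w → Y := fun N => ∑ j ∈ N, M.left (rk hι (e j) g) (D (rk hι g (e j)))
  let η : Finset w → Y := fun N => -∑ j ∈ N, M.right (rk hι g (e j)) (D (rk hι (e j) g))
  have hΦ : ∀ N x y, M.left (rk hι x y) (ξ N) - M.right (rk hι x y) (η N) =
      M.left (rk hι x g) (D (rk hι g (Q N y))) + M.right (rk hι g y) (D (rk hι (Q N x) g)) :=
    fun N x y => key (r := fun x y => rk hι x y) hι.inj hr e g M D N x y
  have hL0 : 0 ≤ ‖M.left‖ := M.left.opNorm_nonneg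
  have hR0 : 0 ≤ ‖M.right‖ := M.right.opNorm_nonneg
  set C := (‖M.left‖ + ‖M.right‖) * ‖D‖ with hC
  have hbd : ∀ N x y, ‖M.left (rk hι x y) (ξ N) - M.right (rk hι x y) (η N)‖ ≤ C * (‖x‖ * ‖y‖) := by
    intro N x y
    rw [hΦ]
    have h1 : ‖M.left (rk hι x g) (D (rk hι g (Q N y)))‖ ≤ ‖M.left‖ * ‖x‖ * (‖D‖ * ‖y‖) := by
      refine (M.left.le_opNorm₂ _ _).trans ?_
      have a1 := rk_norm hι x g
      have a2 := rk_norm hι g (Q N y)
      rw [hgn, mul_one] at a1
      rw [hgn, one_mul] at a2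
      have a3 : ‖D (rk hι g (Q N y))‖ ≤ ‖D‖ * ‖y‖ :=
        (D.le_opNorm _).trans (mul_le_mul_of_nonneg_left (a2.trans (hQn N y)) (norm_nonneg _))
      exact mul_le_mul (mul_le_mul_of_nonneg_left a1 hL0) a3 (norm_nonneg _)
        (mul_nonneg hL0 (norm_nonneg _))
    have h2 : ‖M.right (rk hι g y) (D (rk hι (Q N x) g))‖ ≤ ‖M.right‖ * ‖y‖ * (‖D‖ * ‖x‖) := by
      refine (M.right.le_opNorm₂ _ _).trans ?_
      have a1 := rk_norm hι g y
      have a2 := rk_norm hι (Q N x) g
      rw [hgn, one_mul] at a1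
      rw [hgn, mul_one] at a2
      have a3 : ‖D (rk hι (Q N x) g)‖ ≤ ‖D‖ * ‖x‖ :=
        (D.le_opNorm _).trans (mul_le_mul_of_nonneg_left (a2.trans (hQn N x)) (norm_nonneg _))
      exact mul_le_mul (mul_le_mul_of_nonneg_left a1 hR0) a3 (norm_nonneg _)
        (mul_nonneg hR0 (norm_nonneg _))
    refine (norm_add_le _ _).trans ((add_le_add h1 h2).trans (le_of_eq ?_))
    rw [hC]
    ring
  have hlim : ∀ x y, Tendsto (fun N => M.left (rk hι x y) (ξ N) - M.right (rk hι x y) (η N)) atTop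
      (𝓝 (D (rk hι x y))) := by
    intro x y
    simp only [hΦ]
    have h0 : D (rk hι x y) = M.left (rk hι x g) (D (rk hι g y)) +
        M.right (rk hι g y) (D (rk hι x g)) := by
      rw [← hD, rk_mul, inner_self_eq_norm_sq_to_K, hgn]
      simp
    rw [h0]
    refine Tendsto.add ?_ ?_
    · exact ((M.left (rk hι x g)).continuous.tendsto _).comp
        ((D.continuous.tendsto _).comp (((rkR_cont hι g).tendsto y).comp (hQ y)))
    · exact ((M.right (rk hι g y)).continuous.tendsto _).comp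
        ((D.continuous.tendsto _).comp (((rkL_cont hι g).tendsto x).comp (hQ x)))
  refine ⟨Finset w, inferInstance, inferInstance, inferInstance, ξ, η, fun a => ?_⟩
  obtain ⟨κ, σ, u, v, hσ0, hσs, hu, hv, ha⟩ := nuclear hι a
  let Φ : Finset w → (A →+ Y) := fun N =>
    { toFun := fun a => M.left a (ξ N) - M.right a (η N)
      map_zero' := by simp
      map_add' := fun a b => by
        rw [map_add, map_add, add_apply, add_apply]
        abel }
  have hΦc : ∀ N, Continuous (Φ N) := by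
    intro N
    refine AddMonoidHomClass.continuous_of_bound (Φ N) (‖M.left‖ * ‖ξ N‖ + ‖M.right‖ * ‖η N‖) ?_
    intro b
    change ‖M.left b (ξ N) - M.right b (η N)‖ ≤ _
    refine (norm_sub_le _ _).trans ((add_le_add (M.left.le_opNorm₂ _ _)
      (M.right.le_opNorm₂ _ _)).trans (le_of_eq ?_))
    ring
  have h1 : ∀ N, HasSum (fun k => (σ k : ℂ) •
      (M.left (rk hι (u k) (v k)) (ξ N) - M.right (rk hι (u k) (v k)) (η N)))
      (M.left a (ξ N) - M.right a (η N)) := by
    intro N
    have h2 := ha.map (Φ N) (hΦc N)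
    have e3 : (fun k => (σ k : ℂ) •
      (M.left (rk hι (u k) (v k)) (ξ N) - M.right (rk hι (u k) (v k)) (η N))) =
        (Φ N) ∘ fun k => (σ k : ℂ) • rk hι (u k) (v k) := by
      funext k
      change _ = M.left ((σ k : ℂ) • rk hι (u k) (v k)) (ξ N) -
        M.right ((σ k : ℂ) • rk hι (u k) (v k)) (η N)
      rw [map_smul, map_smul, smul_apply, smul_apply, smul_sub]
    rw [e3]
    exact h2
  have h2 : HasSum (fun k => (σ k : ℂ) • D (rk hι (u k) (v k))) (D a) := by
    have h3 := ha.mapL D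
    convert h3 using 1
    funext k
    rw [map_smul]
  have h3 := tendsto_tsum_of_dominated_convergence (𝓕 := (atTop : Filter (Finset w)))
    (f := fun N k => (σ k : ℂ) •
      (M.left (rk hι (u k) (v k)) (ξ N) - M.right (rk hι (u k) (v k)) (η N)))
    (g := fun k => (σ k : ℂ) • D (rk hι (u k) (v k))) (bound := fun k => C * σ k)
    (hσs.mul_left C) (fun k => (hlim (u k) (v k)).const_smul _)
    (Eventually.of_forall fun N k => by
      have h4 := hbd N (u k) (v k)
      rw [hu, hv, one_mul, mul_one] at h4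
      rw [norm_smul, Complex.norm_real, Real.norm_of_nonneg (hσ0 k), mul_comm]
      exact mul_le_mul_of_nonneg_right h4 (hσ0 k))
  rw [h2.tsum_eq] at h3
  refine h3.congr fun N => ?_
  exact (h1 N).tsum_eq

/-- An infinite-dimensional Hilbert space has an orthonormal sequence. -/
theorem exists_orthonormal [CompleteSpace H] (h : ¬ FiniteDimensional ℂ H) :
    ∃ e : ℕ → H, Orthonormal ℂ e := by
  obtain ⟨w, e, -⟩ := exists_hilbertBasis ℂ H
  rcases finite_or_infinite w with hf | hf
  · exfalso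
    apply h
    have := Fintype.ofFinite w
    exact Module.Finite.of_basis e.toOrthonormalBasis.toBasis
  · exact ⟨_, e.orthonormal.comp _ (Infinite.natEmbedding w).injective⟩

end Pool.Agent.KS6_21.SP
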